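import Mathlib
import Pool.Agent.Y703.CT.StmC

/-!
# Project CT: the local condition at the prime above three (S_LOC3)
-/

set_option autoImplicit false
set_option linter.unusedSectionVars false
set_option linter.unusedVariables false

namespace Pool.Agent.Y180.CT

open WeierstrassCurve
open Pool.Agent.Y692.QS
open Pool.Agent.Y715.T.Gi Pool.Agent.Y715.T.Nr Pool.Agent.Y715.T.Df Pool.Agent.Y715.T.Ell
open Pool.Agent.Y715.T.Red Pool.Agent.Y715.T.Thr
open Pool.Agent.Y703.CT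

open scoped Classical

/-- the field `ℚ₃(ω)` -/
noncomputable def Kl (I : PadicAlgCl 3) : Subfield (PadicAlgCl 3) where
  carrier := {z | ∀ τ : Au 3, τ I = I → τ z = z}
  mul_mem' {a b} ha hb τ h1 := by rw [map_mul, ha τ h1, hb τ h1]
  one_mem' τ _ := map_one τ
  add_mem' {a b} ha hb τ h1 := by rw [map_add, ha τ h1, hb τ h1]
  zero_mem' τ _ := map_zero τ
  neg_mem' {a} ha τ h1 := by rw [map_neg, ha τ h1]
  inv_mem' a ha τ h1 := by rw [map_inv₀, ha τ h1]

lemma mem_Kl {I z : PadicAlgCl 3} : z ∈ Kl I ↔ ∀ τ : Au 3, τ I = I → τ z = z := Iff.rfl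

variable {I : PadicAlgCl 3}

lemma Kl_le {z : PadicAlgCl 3} (h : z ∈ Kl I) : z ∈ Lf I := fun τ _ hτ => h τ hτ

lemma lam_mem : 1 + 2 * I ∈ Kl I := by
  intro τ hτ
  rw [map_add, map_mul, map_one, map_ofNat, hτ]

lemma ev_mem (hI : I ^ 2 + I + 1 = 0) (z : Ei) : ev I hI z ∈ Kl I := fun τ hτ => ev_fix hI hτ z

lemma three_memK : (3 : PadicAlgCl 3) ∈ Kl I := ofNat_mem _ 3

/-- inverses of the elements `1 + 3 z` -/
lemma inv_exK {z : PadicAlgCl 3} (h : z ∈ Kl I) (hz : ‖z‖ ≤ 1) : ∃ w ∈ Kl I, ‖w‖ ≤ 1 ∧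
    (1 + 3 * z) * (1 + 3 * w) = 1 := by
  have h1 := norm_one_add hz
  have h0 := one_add_ne hz
  have h2 : 1 + 3 * z ∈ Kl I := add_mem (one_mem _) (mul_mem three_memK h)
  refine ⟨-z / (1 + 3 * z), div_mem (neg_mem h) h2, ?_, ?_⟩
  · rw [norm_div, h1, div_one, norm_neg]
    exact hz
  · field_simp
    ring

lemma cube_val (hI : I ^ 2 + I + 1 = 0) {z x : PadicAlgCl 3} (hz : z ∈ Kl I) (hx : x ∈ Kl I)
    (hz0 : z ≠ 0) (h : ‖z‖ = ‖x‖ ^ 3) : ∃ m : ℤ, ‖z‖ ^ 2 = (3 : ℝ) ^ (3 * m) := by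
  have hx0 : x ≠ 0 := by
    rintro rfl
    rw [norm_zero, zero_pow three_ne_zero, norm_eq_zero] at h
    exact hz0 h
  obtain ⟨m, hm⟩ := val hI (Kl_le hx) hx0
  refine ⟨m, ?_⟩
  rw [h, mul_comm, zpow_mul, ← hm]
  norm_cast
  ring

lemma cube_val' (hI : I ^ 2 + I + 1 = 0) {z x : PadicAlgCl 3} (hz : z ∈ Kl I) (hx : x ∈ Kl I)
    (hz0 : z ≠ 0) (h : ‖z‖ ^ 2 = ‖x‖ ^ 3) : ∃ m : ℤ, ‖z‖ ^ 2 = (3 : ℝ) ^ (3 * m) := by
  have hx0 : x ≠ 0 := by
    rintro rfl
    rw [norm_zero, zero_pow three_ne_zero] at h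
    exact hz0 (norm_eq_zero.1 (pow_eq_zero_iff two_ne_zero |>.1 h))
  obtain ⟨m, hm⟩ := val hI (Kl_le hx) hx0
  obtain ⟨n, hn⟩ := val hI (Kl_le hz) hz0
  have h1 : (3 : ℝ) ^ (n * 2) = (3 : ℝ) ^ (m * 3) := by
    rw [zpow_mul, zpow_mul, ← hm, ← hn, h]
    norm_cast
    ring
  have h2 := zpow_right_injective₀ (a := (3 : ℝ)) (by norm_num) (by norm_num) h1
  refine ⟨n - m, ?_⟩
  rw [hn]
  congr 1
  omega

lemma le_third {z : PadicAlgCl 3} {m : ℤ} (h : ‖z‖ ^ 2 = (3 : ℝ) ^ (3 * m)) (h1 : ‖z‖ < 1) :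
    ‖z‖ ≤ 3⁻¹ := by
  have h2 : ‖z‖ ^ 2 < 1 := pow_lt_one₀ (norm_nonneg _) h1 two_ne_zero
  have h3 : m ≤ -1 := by
    rw [h] at h2
    by_contra hcon
    push Not at hcon
    have : 0 ≤ 3 * m := by omega
    exact absurd (one_le_zpow₀ (by norm_num : (1 : ℝ) ≤ 3) this) (not_le.2 h2)
  have h4 : ‖z‖ ^ 2 ≤ (3⁻¹ : ℝ) ^ 2 := by
    rw [h]
    have e : ((3⁻¹ : ℝ)) ^ 2 = (3 : ℝ) ^ (-2 : ℤ) := by norm_num
    rw [e]
    exact zpow_le_zpow_right₀ (by norm_num) (by omega)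
  exact (pow_le_pow_iff_left₀ (norm_nonneg _) (by norm_num) two_ne_zero).1 h4

lemma ge_three {z : PadicAlgCl 3} {m : ℤ} (h : ‖z‖ ^ 2 = (3 : ℝ) ^ (3 * m)) (h1 : 1 < ‖z‖) :
    3 ≤ ‖z‖ := by
  have h2 : 1 < ‖z‖ ^ 2 := one_lt_pow₀ h1 two_ne_zero
  have h3 : 1 ≤ m := by
    rw [h] at h2
    by_contra hcon
    push Not at hcon
    have : 3 * m ≤ 0 := by omega
    exact absurd (zpow_le_one_of_nonpos₀ (by norm_num : (1 : ℝ) ≤ 3) this) (not_le.2 h2)
  have h4 : (3 : ℝ) ^ 2 ≤ ‖z‖ ^ 2 := by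
    rw [h]
    have e : (3 : ℝ) ^ 2 = (3 : ℝ) ^ (2 : ℤ) := by norm_num
    rw [e]
    exact zpow_le_zpow_right₀ (by norm_num) (by omega)
  exact (pow_le_pow_iff_left₀ (by norm_num) (norm_nonneg _) two_ne_zero).1 h4

lemma div3_le {z : PadicAlgCl 3} (h : ‖z‖ ≤ 3⁻¹) : ‖z / 3‖ ≤ 1 := by
  rw [norm_div, norm_three']
  rw [div_le_one (by norm_num)]
  exact h

/-- small elements are multiples of `1 + 2 I` -/
lemma lam_div (hI : I ^ 2 + I + 1 = 0) {z : PadicAlgCl 3} (h : z ∈ Kl I) (hz : ‖z‖ < 1) :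
    ∃ w ∈ Kl I, ‖w‖ ≤ 1 ∧ z = (1 + 2 * I) * w := by
  have hl := lam_pos hI
  have hl0 : 1 + 2 * I ≠ 0 := norm_pos_iff.1 hl
  refine ⟨z / (1 + 2 * I), div_mem h lam_mem, ?_, by rw [mul_div_cancel₀ _ hl0]⟩
  rw [norm_div]
  exact (div_le_one hl).2 (le_lam hI (Kl_le h) hz)

/-- **the ordinate is a cube modulo `1 + 3 O`** -/
theorem ord_cube (hI : I ^ 2 + I + 1 = 0) {d X Y : PadicAlgCl 3} (hd : d ∈ Kl I)
    (hd1 : ‖d‖ ≤ 1) (hd2 : ¬ ‖d‖ < 1) (hX : X ∈ Kl I) (hY : Y ∈ Kl I) (hY0 : Y ≠ 0)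
    (he : Y ^ 2 + (1 + 3 * d) * Y = X ^ 3) :
    ∃ V ∈ Kl I, V ≠ 0 ∧ ∃ t ∈ Kl I, ‖t‖ ≤ 1 ∧ Y = V ^ 3 * (1 + 3 * t) := by
  have h3n := norm_three'
  have hDn := norm_one_add hd1
  have hD0 := one_add_ne hd1
  rcases lt_trichotomy ‖Y‖ 1 with h1 | h1 | h1
  · -- `Y` is small
    have h2 : ‖Y + (1 + 3 * d)‖ = 1 := by
      rw [add_comm, eq_of_lt, hDn]
      rwa [hDn]
    have h3 : ‖Y‖ = ‖X‖ ^ 3 := by
      rw [← norm_pow, ← he]
      have e : Y ^ 2 + (1 + 3 * d) * Y = Y * (Y + (1 + 3 * d)) := by ring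
      rw [e, norm_mul, h2, mul_one]
    obtain ⟨m, hm⟩ := cube_val hI hY hX hY0 h3
    have h4 := div3_le (le_third hm h1)
    have hX0 : X ≠ 0 := by
      rintro rfl
      rw [norm_zero, zero_pow three_ne_zero, norm_eq_zero] at h3
      exact hY0 h3
    have h5 : d + Y / 3 ∈ Kl I := add_mem hd (div_mem hY three_memK)
    have h6 : ‖d + Y / 3‖ ≤ 1 := add_le hd1 h4
    obtain ⟨t, ht, ht1, e⟩ := inv_exK h5 h6
    refine ⟨X, hX, hX0, t, ht, ht1, ?_⟩
    have h7 : (3 : PadicAlgCl 3) ≠ 0 := three_ne_zero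
    have e1 : X ^ 3 = Y * (1 + 3 * (d + Y / 3)) := by
      rw [← he]
      field_simp
      ring
    rw [e1, mul_assoc, e, mul_one]
  · -- `Y` is a unit
    by_cases h2 : ‖Y + (1 + 3 * d)‖ < 1
    · have h4 : ‖Y + (1 + 3 * d)‖ ≤ 3⁻¹ := by
        by_cases h5 : Y + (1 + 3 * d) = 0
        · rw [h5, norm_zero]
          norm_num
        · have h3 : ‖Y + (1 + 3 * d)‖ = ‖X‖ ^ 3 := by
            rw [← norm_pow, ← he]
            have e : Y ^ 2 + (1 + 3 * d) * Y = Y * (Y + (1 + 3 * d)) := by ring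
            rw [e, norm_mul, h1, one_mul]
          obtain ⟨m, hm⟩ := cube_val hI
            (add_mem hY (add_mem (one_mem _) (mul_mem three_memK hd))) hX h5 h3
          exact le_third hm h2
      refine ⟨-1, neg_mem (one_mem _), neg_ne_zero.2 one_ne_zero, d - (Y + (1 + 3 * d)) / 3,
        sub_mem hd (div_mem (add_mem hY (add_mem (one_mem _) (mul_mem three_memK hd)))
          three_memK), sub_le hd1 (div3_le h4), ?_⟩
      have h7 : (3 : PadicAlgCl 3) ≠ 0 := three_ne_zero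
      field_simp
      ring
    · -- `Y` and `Y + D` are units
      have hY1 : ‖Y - 1‖ < 1 := by
        rcases residue3 hI h1.le hY with h3 | h3 | h3
        · rw [h1] at h3
          exact absurd h3 (lt_irrefl _)
        · exact h3
        · exfalso
          apply h2
          have e : Y + (1 + 3 * d) = (Y + 1) + 3 * d := by ring
          rw [e]
          refine add_lt h3 ?_
          rw [norm_mul, h3n]
          linarith
      have hX1 : ‖X‖ ≤ 1 := by
        apply le_of_pow three_ne_zero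
        rw [← he]
        exact add_le (pow_le 2 h1.le) (mul_le hDn.le h1.le)
      have hXc : ‖X ^ 3 - 2‖ < 1 := by
        have e : X ^ 3 - 2 = (Y - 1) * (Y + 2) + 3 * (d * Y) := by
          rw [← he]
          ring
        rw [e]
        refine add_lt ?_ ?_
        · rw [mul_comm]
          exact mul_lt (add_le h1.le two_le) hY1
        · rw [norm_mul, h3n]
          have := mul_le hd1 h1.le
          linarith
      have hX2 : ‖X + 1‖ < 1 := by
        have h2n : ‖(2 : PadicAlgCl 3)‖ = 1 := by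
          have e : (2 : PadicAlgCl 3) = 3 + -1 := by ring
          rw [e, add_comm, eq_of_lt, norm_neg, norm_one]
          rw [norm_neg, norm_one, h3n]
          norm_num
        rcases residue3 hI hX1 hX with h3 | h3 | h3
        · exfalso
          have h4 : ‖X ^ 3‖ < 1 := by
            rw [norm_pow]
            exact pow_lt_one₀ (norm_nonneg _) h3 three_ne_zero
          have h5 : ‖(2 : PadicAlgCl 3)‖ < 1 := by
            have e : (2 : PadicAlgCl 3) = X ^ 3 - (X ^ 3 - 2) := by ring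
            rw [e]
            exact sub_lt h4 hXc
          rw [h2n] at h5
          exact lt_irrefl _ h5
        · exfalso
          have h4 : ‖X ^ 3 - 1‖ < 1 := by
            have e : X ^ 3 - 1 = (X ^ 2 + X + 1) * (X - 1) := by ring
            rw [e]
            exact mul_lt (add_le (add_le (pow_le 2 hX1) hX1) (by rw [norm_one])) h3
          have h5 : ‖(1 : PadicAlgCl 3)‖ < 1 := by
            have e : (1 : PadicAlgCl 3) = (X ^ 3 - 1) - (X ^ 3 - 2) := by ring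
            rw [e]
            exact sub_lt h4 hXc
          rw [norm_one] at h5
          exact lt_irrefl _ h5
        · exact h3
      obtain ⟨η, hη, hη1, eη⟩ := lam_div hI (sub_mem hY (one_mem _)) hY1
      obtain ⟨ξ, hξ, hξ1, eξ⟩ := lam_div hI (add_mem hX (one_mem _)) hX2
      have hll : (1 + 2 * I) ^ 2 = -3 := by linear_combination 4 * hI
      have hlp := lam_pos hI
      have hl1 := norm_lam_lt hI
      have hl0 : 1 + 2 * I ≠ 0 := norm_pos_iff.1 hlp
      obtain ⟨m, hm⟩ : ∃ m : PadicAlgCl 3, m = 1 + 2 * I := ⟨_, rfl⟩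
      rw [← hm] at eη eξ hll hl1 hl0 hlp
      have eY : Y = 1 + m * η := by linear_combination eη
      have eX : X = -1 + m * ξ := by linear_combination eξ
      have key : η ^ 2 = (1 + d) + m * (η + d * η - ξ + m * ξ ^ 2 + ξ ^ 3) := by
        have h7 : (3 : PadicAlgCl 3) ≠ 0 := three_ne_zero
        apply mul_left_cancel₀ h7
        rw [eX, eY] at he
        linear_combination -he + (η ^ 2 - m * ξ ^ 3) * hll
      have hsm : ‖m * (η + d * η - ξ + m * ξ ^ 2 + ξ ^ 3)‖ < 1 := by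
        rw [mul_comm]
        refine mul_lt ?_ hl1
        exact add_le (add_le (sub_le (add_le hη1 (mul_le hd1 hη1)) hξ1)
          (mul_le hl1.le (pow_le 2 hξ1))) (pow_le 3 hξ1)
      have h2n : ‖(2 : PadicAlgCl 3)‖ = 1 := by
        have e : (2 : PadicAlgCl 3) = 3 + -1 := by ring
        rw [e, add_comm, eq_of_lt, norm_neg, norm_one]
        rw [norm_neg, norm_one, h3n]
        norm_num
      rcases residue3 hI hd1 hd with h3 | h3 | h3
      · exact absurd h3 hd2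
      · -- `η ^ 2 = 2`
        exfalso
        have h5 : ‖η ^ 2 - 2‖ < 1 := by
          have e : η ^ 2 - 2 = (d - 1) + m * (η + d * η - ξ + m * ξ ^ 2 + ξ ^ 3) := by
            rw [key]
            ring
          rw [e]
          exact add_lt h3 hsm
        have h6 : ‖η ^ 2 - 1‖ < 1 → False := by
          intro h6
          have h7 : ‖(1 : PadicAlgCl 3)‖ < 1 := by
            have e : (1 : PadicAlgCl 3) = (η ^ 2 - 1) - (η ^ 2 - 2) := by ring
            rw [e]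
            exact sub_lt h6 h5
          rw [norm_one] at h7
          exact lt_irrefl _ h7
        rcases residue3 hI hη1 hη with h4 | h4 | h4
        · have h7 : ‖(2 : PadicAlgCl 3)‖ < 1 := by
            have e : (2 : PadicAlgCl 3) = η * η - (η ^ 2 - 2) := by ring
            rw [e]
            exact sub_lt (mul_lt hη1 h4) h5
          rw [h2n] at h7
          exact lt_irrefl _ h7
        · apply h6
          have e : η ^ 2 - 1 = (η + 1) * (η - 1) := by ring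
          rw [e]
          exact mul_lt (add_le hη1 (by rw [norm_one])) h4
        · apply h6
          have e : η ^ 2 - 1 = (η - 1) * (η + 1) := by ring
          rw [e]
          exact mul_lt (sub_le hη1 (by rw [norm_one])) h4
      · -- `η` is small
        have h5 : ‖η‖ < 1 := by
          apply lt_of_pow two_ne_zero
          rw [key, add_comm (1 : PadicAlgCl 3) d]
          exact add_lt h3 hsm
        have h6 : ‖η‖ ≤ ‖m‖ := by
          rw [hm]
          exact le_lam hI (Kl_le hη) h5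
        have h7 : ‖Y - 1‖ ≤ 3⁻¹ := by
          rw [eη, norm_mul]
          have h8 := norm_lam hI
          rw [← hm] at h8
          rw [← h8, pow_two]
          exact mul_le_mul_of_nonneg_left h6 (norm_nonneg _)
        refine ⟨1, one_mem _, one_ne_zero, (Y - 1) / 3,
          div_mem (sub_mem hY (one_mem _)) three_memK, div3_le h7, ?_⟩
        have h7 : (3 : PadicAlgCl 3) ≠ 0 := three_ne_zero
        field_simp
        ring
  · -- `Y` is large
    have h2 : ‖Y ^ 2 + (1 + 3 * d) * Y‖ = ‖Y‖ ^ 2 := by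
      rw [eq_of_lt, norm_pow]
      rw [norm_mul, hDn, one_mul, norm_pow]
      nlinarith
    have h3 : ‖Y‖ ^ 2 = ‖X‖ ^ 3 := by
      rw [← norm_pow X, ← he, h2]
    obtain ⟨m, hm⟩ := cube_val' hI hY hX hY0 h3
    have h4 := ge_three hm h1
    have hX0 : X ≠ 0 := by
      rintro rfl
      rw [norm_zero, zero_pow three_ne_zero] at h3
      exact hY0 (norm_eq_zero.1 (pow_eq_zero_iff two_ne_zero |>.1 h3))
    have hDm : 1 + 3 * d ∈ Kl I := add_mem (one_mem _) (mul_mem three_memK hd)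
    have h7 : (3 : PadicAlgCl 3) ≠ 0 := three_ne_zero
    refine ⟨Y / X, div_mem hY hX, div_ne_zero hY0 hX0, (1 + 3 * d) / (3 * Y),
      div_mem hDm (mul_mem three_memK hY), ?_, ?_⟩
    · rw [norm_div, norm_mul, hDn, h3n, div_le_one (by positivity)]
      linarith
    · have hX3 : X ^ 3 ≠ 0 := pow_ne_zero 3 hX0
      rw [div_pow, ← he]
      rw [← he] at hX3
      have h8 : 1 + 3 * ((1 + 3 * d) / (3 * Y)) = (Y ^ 2 + (1 + 3 * d) * Y) / Y ^ 2 := by
        field_simp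
      rw [h8, div_mul_div_cancel₀ hX3]
      field_simp

/-! ### The function `g` and the Galois action -/

section points

variable {F : Type} [Field F] [Algebra ℚ F] [CharZero F] {J : F} (hJ : J ^ 2 + J + 1 = 0)

lemma gg_im (P : Pt F) : gg J (im (isE F) hJ P) = J ^ 2 * gg J P := by
  rcases P with _ | ⟨x, y, hn⟩
  · show (0 : F) = J ^ 2 * 0
    rw [mul_zero]
  · have hlam := lam_ne (isE F) hJ
    have hJ0 := I_ne (isE F) hJ
    have hJ3 := I_cube (isE F) hJ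
    rw [im_some, gg_some, gg_some]
    by_cases hx : x = 0
    · subst hx
      simp
    · obtain ⟨m, hm⟩ : ∃ m : F, m = 1 + 2 * J := ⟨_, rfl⟩
      rw [← hm] at hlam ⊢
      obtain ⟨c, hc⟩ : ∃ c : F, c = y - J ^ 2 := ⟨_, rfl⟩
      rw [← hc]
      field_simp
      linear_combination (-c) * hJ3

lemma gg_jj (c : ZMod 3) (P : Pt F) : gg J (jj hJ c P) = (J ^ 2) ^ c.val * gg J P := by
  unfold jj
  generalize c.val = n
  induction n with
  | zero => rw [Function.iterate_zero, id, pow_zero, one_mul]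
  | succ n ih => rw [Function.iterate_succ_apply', gg_im, ih, pow_succ]; ring

lemma jj_sub (c : ZMod 3) (P Q : Pt F) : jj hJ c (P - Q) = jj hJ c P - jj hJ c Q := by
  unfold jj
  generalize c.val = n
  induction n with
  | zero => rfl
  | succ n ih =>
    rw [Function.iterate_succ_apply', ih, map_sub, Function.iterate_succ_apply',
      Function.iterate_succ_apply']

lemma jj_im (c : ZMod 3) (P : Pt F) : jj hJ c (im (isE F) hJ P) = im (isE F) hJ (jj hJ c P) := by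
  unfold jj
  rw [← Function.iterate_succ_apply, Function.iterate_succ_apply']

lemma jj_tt (c d : ZMod 3) : jj hJ c (tt F d) = tt F d := by
  unfold jj
  generalize c.val = n
  induction n with
  | zero => rfl
  | succ n ih => rw [Function.iterate_succ_apply', ih, im_tt]

lemma jj_neg (c : ZMod 3) (P : Pt F) : jj hJ c (-P) = -jj hJ c P := by
  have h := jj_sub hJ c 0 P
  have h0 : jj hJ c (0 : Pt F) = 0 := by
    rw [← tt_zero, jj_tt]
  rw [h0, zero_sub, zero_sub] at h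
  exact h

lemma jj_some (c : ZMod 3) {x y : F} (h : (W0.baseChange F).toAffine.Nonsingular x y) :
    ∃ h', jj hJ c (.some x y h) = .some (J ^ c.val * x) y h' := by
  unfold jj
  generalize c.val = n
  induction n with
  | zero =>
    refine ⟨by rw [pow_zero, one_mul]; exact h, ?_⟩
    rw [Function.iterate_zero, id, Affine.Point.some.injEq]
    exact ⟨by ring, rfl⟩
  | succ n ih =>
    obtain ⟨h', e⟩ := ih
    have h2 := (isE F).im_nons hJ h'
    refine ⟨by rw [pow_succ', mul_assoc]; exact h2, ?_⟩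
    rw [Function.iterate_succ_apply', e, im_some, Affine.Point.some.injEq]
    exact ⟨by ring, rfl⟩

include hJ in
lemma gg_add_tt {x y : F} (hn : (W0.baseChange F).toAffine.Nonsingular x y) (hx : x ≠ 0)
    (hy : y ≠ 0) (c : ZMod 3) :
    gg J ((.some x y hn : Pt F) + tt F c) = (J ^ 2) ^ c.val * gg J (.some x y hn : Pt F) := by
  rcases z3 c with rfl | rfl | rfl
  · rw [tt_zero, add_zero, ZMod.val_zero, pow_zero, one_mul]
  · rw [tt_one, ZMod.val_one, pow_one]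
    exact gg_add_T0 (isE F) hJ hn hx hy
  · have e2 : (-1 : ZMod 3).val = 2 := by decide
    have e3 : tt F (-1) = T0 (isE F) + T0 (isE F) := by
      have : (-1 : ZMod 3) = 1 + 1 := by decide
      rw [this, tt_add, tt_one]
    rw [e2, e3, ← add_assoc]
    obtain ⟨h, e⟩ := add_T0 (isE F) hn hx
    have h1 := gg_add_T0 (isE F) hJ h (div_ne_zero (neg_ne_zero.2 hy) (pow_ne_zero 2 hx))
      (div_ne_zero (neg_ne_zero.2 hy) (pow_ne_zero 3 hx))
    rw [← e, gg_add_T0 (isE F) hJ hn hx hy] at h1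
    rw [h1]
    ring

end points

lemma gg_pm {τ : Au 3} (hτ : τ I = I) (P : Pt (PadicAlgCl 3)) :
    gg I (pm (lh τ) P) = τ (gg I P) := by
  rcases P with _ | ⟨x, y, hn⟩
  · show (0 : PadicAlgCl 3) = τ 0
    rw [map_zero]
  · rw [pm_some, gg_some, gg_some, lh_apply, lh_apply, map_div₀, map_sub, map_mul, map_add,
      map_mul, map_pow, map_one, map_ofNat, hτ]

lemma pow_three (hI : I ^ 2 + I + 1 = 0) (c : ZMod 3) : I ^ (-c).val = (I ^ 2) ^ c.val := by
  have hI3 : I ^ 3 = 1 := by linear_combination (I - 1) * hI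
  rcases z3 c with rfl | rfl | rfl
  · rw [neg_zero, ZMod.val_zero, pow_zero, pow_zero]
  · have e2 : (-1 : ZMod 3).val = 2 := by decide
    rw [e2, ZMod.val_one, pow_one]
  · have e2 : (-1 : ZMod 3).val = 2 := by decide
    rw [neg_neg, e2, ZMod.val_one, pow_one]
    linear_combination (-I) * hI3

lemma pow_cancel (hI : I ^ 2 + I + 1 = 0) (c : ZMod 3) : I ^ c.val * (I ^ 2) ^ c.val = 1 := by
  have hI3 : I ^ 3 = 1 := by linear_combination (I - 1) * hI
  rw [← mul_pow, ← pow_succ', hI3, one_pow]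

section main

variable {i₀ : QB} {hi : i₀ ^ 2 + i₀ + 1 = 0} {D : Ei} {u : QB} {a h : GK i₀ → ZMod 3}
  {ι : QB →ₐ[ℚ] PadicAlgCl 3} {R : Pt (PadicAlgCl 3)}

lemma iota_ev' (hi : i₀ ^ 2 + i₀ + 1 = 0) (ι : QB →ₐ[ℚ] PadicAlgCl 3) (z : Ei) :
    ι (ev i₀ hi z) = ev (ι i₀) (iota_sq' hi ι) z :=
  map_ev ι.toRingHom hi (iota_sq' hi ι) rfl z

lemma tau_u (hT : Tw hi D u a) {τ : Au 3} {σ : GK i₀} (hc : Cmp ι τ σ) :
    τ (ι u) = (ι i₀ ^ 2) ^ (a σ).val * ι u := by
  rw [hc, hT.act, map_mul, map_pow, pow_three (iota_sq' hi ι)]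

/-- the transformation of `g` -/
lemma tau_g (hT : Tw hi D u a) (hS : St1 hi ι a h R) {x y : PadicAlgCl 3}
    {hn : (W0.baseChange (PadicAlgCl 3)).toAffine.Nonsingular x y} (hR : R = .some x y hn)
    (hx : x ≠ 0) {τ : Au 3} {σ : GK i₀} (hc : Cmp ι τ σ) :
    τ (ι u * gg (ι i₀) R) = (ι i₀ ^ 2) ^ (h σ).val * (ι u * gg (ι i₀) R) := by
  have hI := iota_sq' hi ι
  have he := ((isE _).eqn x y).1 hn.1
  have hy : y ≠ 0 := by
    rintro rfl
    apply hx
    have : x ^ 3 = 0 := by rw [← he]; ring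
    exact pow_eq_zero_iff three_ne_zero |>.1 this
  have h1 := sub_eq_iff_eq_add.1 (hS τ σ hc)
  have h2 := congrArg (gg (ι i₀)) h1
  rw [gg_jj, gg_pm hc.fix, add_comm, hR, gg_add_tt hI hn hx hy, ← hR] at h2
  rw [map_mul, tau_u hT hc]
  linear_combination (ι u) * h2

/-- the transformation of the abscissa -/
lemma tau_X (hT : Tw hi D u a) (hS : St1 hi ι a h R) {X Y : PadicAlgCl 3}
    {hn : (W0.baseChange (PadicAlgCl 3)).toAffine.Nonsingular X Y}
    (hQ : R - im (isE _) (iota_sq' hi ι) R = .some X Y hn) : ι u ^ 2 * X ∈ Kl (ι i₀) := by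
  intro τ hτ
  have hI := iota_sq' hi ι
  obtain ⟨σ, hc⟩ := exists_cmp ι τ hτ
  have h1 := sub_eq_iff_eq_add.1 (hS τ σ hc)
  have h2 : jj hI (a σ) (pm (lh τ) (R - im (isE _) hI R)) = R - im (isE _) hI R := by
    rw [map_sub, pm_im (lh τ) hI hI hc.fix, jj_sub, jj_im, h1, map_add, im_tt]
    abel
  rw [hQ, pm_some] at h2
  obtain ⟨h', e⟩ := jj_some hI (a σ) ((Affine.baseChange_nonsingular W0.toAffine
    (lh τ).injective ..).mpr hn)
  rw [e, Affine.Point.some.injEq] at h2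
  have h3 : ι i₀ ^ (a σ).val * τ X = X := h2.1
  rw [map_mul, map_pow, tau_u hT hc]
  have h4 := pow_cancel hI (a σ)
  obtain ⟨A, hA⟩ : ∃ A, A = (ι i₀ ^ 2) ^ (a σ).val := ⟨_, rfl⟩
  obtain ⟨B, hB⟩ : ∃ B, B = ι i₀ ^ (a σ).val := ⟨_, rfl⟩
  have hI3 : ι i₀ ^ 3 = 1 := by linear_combination (ι i₀ - 1) * hI
  have hA3 : A ^ 2 = B := by
    rw [hA, hB, ← pow_mul, ← pow_mul, mul_comm _ 2, ← mul_assoc]
    have e5 : ι i₀ ^ (2 * 2 * (a σ).val) = ι i₀ ^ (a σ).val * (ι i₀ ^ 3) ^ (a σ).val := by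
      rw [← pow_mul, ← pow_add]
      congr 1
      ring
    rw [e5, hI3, one_pow, mul_one]
  rw [← hA]
  rw [← hB] at h3
  linear_combination (ι u) ^ 2 * h3 + (ι u) ^ 2 * τ X * hA3

/-- the result for a generator -/
lemma fin_of (hi : i₀ ^ 2 + i₀ + 1 = 0) (ι : QB →ₐ[ℚ] PadicAlgCl 3) {v q : Ei} {g : ℕ}
    (hv : IsUnit v) {V t : PadicAlgCl 3} (hV : V ∈ Kl (ι i₀)) (ht : t ∈ Kl (ι i₀))
    (ht1 : ‖t‖ ≤ 1) (e : ev (ι i₀) (iota_sq' hi ι) (v * lam ^ g * (1 + 3 * q)) =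
      V ^ 3 * (1 + 3 * t)) : 3 ∣ g ∧ (v = 1 ∨ v = -1) :=
  gen (iota_sq' hi ι) hv (Kl_le hV) ht1 (Kl_le ht) e.symm

end main

/-! ### The theorem -/

/-- the condition on the norm -/
lemma not_small {D d₀ : Ei} (hd₀ : D - 1 = 3 * d₀) (hD9 : ¬ (9 : ℤ) ∣ nr D - 1)
    (hI : I ^ 2 + I + 1 = 0) : ¬ ‖ev I hI d₀‖ < 1 := by
  intro h
  obtain ⟨r, hr⟩ := (dvd_iff hI prime_lam (lam_lt hI) d₀).2 h
  apply hD9
  have hD : D = 1 + 3 * (lam * r) := by rw [← hr, ← hd₀]; ring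
  obtain ⟨r1, r2⟩ := r
  have e : (1 + 3 * (lam * (⟨r1, r2⟩ : Ei)) : Ei) =
      ⟨1 + 3 * (r1 - 2 * r2), 3 * (2 * r1 - r2)⟩ := by
    have h3 : (3 : Ei) = ⟨3, 0⟩ := by decide
    have h1 : (1 : Ei) = ⟨1, 0⟩ := by decide
    rw [h3, h1]
    unfold lam
    ext
    · simp
      ring
    · simp
      ring
  rw [hD, e]
  unfold nr
  refine ⟨-r2 + (r1 - 2 * r2) ^ 2 - (r1 - 2 * r2) * (2 * r1 - r2) + (2 * r1 - r2) ^ 2, ?_⟩
  simp only
  ring

section final

variable {i₀ : QB} {hi : i₀ ^ 2 + i₀ + 1 = 0} {D : Ei} {u : QB} {a h : GK i₀ → ZMod 3}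
  {ι : QB →ₐ[ℚ] PadicAlgCl 3} {R : Pt (PadicAlgCl 3)}

lemma st1_neg (hS : St1 hi ι a h R) : St1 hi ι a (fun σ => -h σ) (-R) := by
  intro τ σ hc
  rw [map_neg, jj_neg, ← tt_neg, ← hS τ σ hc]
  abel

theorem core3 (hD3 : (3 : Ei) ∣ D - 1) (hD9 : ¬ (9 : ℤ) ∣ nr D - 1) (hT : Tw hi D u a)
    {v q : Ei} {g : ℕ} (hv : IsUnit v) (hK : Kc hi (v * lam ^ g * (1 + 3 * q)) h)
    (hS : St1 hi ι a h R) : 3 ∣ g ∧ (v = 1 ∨ v = -1) := by
  have hI := iota_sq' hi ι
  have hI3 : ι i₀ ^ 3 = 1 := by linear_combination (ι i₀ - 1) * hI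
  obtain ⟨d₀, hd₀⟩ := hD3
  obtain ⟨d, hd⟩ : ∃ d, d = ev (ι i₀) hI d₀ := ⟨_, rfl⟩
  have hdm : d ∈ Kl (ι i₀) := by rw [hd]; exact ev_mem hI d₀
  have hd1 : ‖d‖ ≤ 1 := by rw [hd]; exact ev_le hI d₀
  have hd2 : ¬ ‖d‖ < 1 := by rw [hd]; exact not_small hd₀ hD9 hI
  have hU3 : ι u ^ 3 = 1 + 3 * d := by
    rw [← map_pow, hT.cube, iota_ev' hi ι, hd]
    have e : D = 1 + 3 * d₀ := by rw [← hd₀]; ring
    rw [e, map_add, map_one, map_mul, map_ofNat]
  have hU0 : ι u ≠ 0 := by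
    intro h0
    rw [h0, zero_pow three_ne_zero] at hU3
    exact one_add_ne hd1 hU3.symm
  -- the cube root
  obtain ⟨s, hs⟩ := IsAlgClosed.exists_pow_nat_eq (ev i₀ hi (v * lam ^ g * (1 + 3 * q)))
    (n := 3) (by norm_num)
  have hZ : ι s ^ 3 = ev (ι i₀) hI (v * lam ^ g * (1 + 3 * q)) := by
    rw [← map_pow, hs, iota_ev' hi ι]
  have hts : ∀ (τ : Au 3) (σ : GK i₀), Cmp ι τ σ → τ (ι s) = ι i₀ ^ (h σ).val * ι s := by
    intro τ σ hc
    rw [hc, hK s hs σ, map_mul, map_pow]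
  have hz0 : v * lam ^ g * (1 + 3 * q) ≠ 0 := by
    refine mul_ne_zero (mul_ne_zero hv.ne_zero (pow_ne_zero _ prime_lam.ne_zero)) ?_
    intro h0
    have h1 : ev (ι i₀) hI (1 + 3 * q) = 0 := by rw [h0, map_zero]
    rw [map_add, map_one, map_mul, map_ofNat] at h1
    exact one_add_ne (ev_le hI q) h1
  have hZ0 : ι s ^ 3 ≠ 0 := by
    rw [hZ]
    exact ev_ne hI hz0
  have hs0 : ι s ≠ 0 := fun h0 => hZ0 (by rw [h0, zero_pow three_ne_zero])
  have hZm : ι s ^ 3 ∈ Kl (ι i₀) := by rw [hZ]; exact ev_mem hI _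
  by_cases hQ0 : R - im (isE _) hI R = 0
  · -- `R` is a multiple of `T`
    obtain ⟨c, hc⟩ := ker_tt hI hQ0
    have hm : ι s ∈ Kl (ι i₀) := by
      intro τ hτ
      obtain ⟨σ, hcm⟩ := exists_cmp ι τ hτ
      have h1 := hS τ σ hcm
      rw [hc, pm_tt, jj_tt, sub_self] at h1
      have h2 := tt_eq_zero.1 h1.symm
      rw [hts τ σ hcm, h2, ZMod.val_zero, pow_zero, one_mul]
    exact fin_of (q := q) hi ι hv hm (zero_mem _) (by rw [norm_zero]; exact zero_le_one)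
      (by rw [← hZ]; ring)
  · obtain ⟨x, y, hn, hR⟩ : ∃ x y, ∃ hn : (W0.baseChange (PadicAlgCl 3)).toAffine.Nonsingular x y,
        R = .some x y hn := by
      rcases R with _ | ⟨x, y, hn⟩
      · exfalso
        apply hQ0
        show (0 : Pt (PadicAlgCl 3)) - im (isE _) hI 0 = 0
        rw [map_zero, sub_zero]
      · exact ⟨x, y, hn, rfl⟩
    have he := ((isE _).eqn x y).1 hn.1
    have hx : x ≠ 0 := by
      intro h0
      apply hQ0
      rw [hR, im_some, sub_eq_zero, Affine.Point.some.injEq]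
      exact ⟨by rw [h0, mul_zero], rfl⟩
    obtain ⟨XQ, hnQ, eQ⟩ : ∃ XQ, ∃ hnQ : (W0.baseChange (PadicAlgCl 3)).toAffine.Nonsingular XQ
        (gg (ι i₀) R ^ 3), R - im (isE _) hI R = .some XQ _ hnQ := by
      rw [hR]
      obtain ⟨XQ, hnQ, eQ, -⟩ := one_sub_im (isE _) hI hn hx
      exact ⟨XQ, hnQ, eQ⟩
    by_cases hG : gg (ι i₀) R = 0
    · -- `R - J R = T`
      have hlam := lam_ne (isE (PadicAlgCl 3)) hI
      have hy : y = ι i₀ ^ 2 := by
        rw [hR, gg_some, div_eq_zero_iff] at hG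
        rcases hG with h1 | h1
        · exact sub_eq_zero.1 h1
        · exact absurd h1 (mul_ne_zero hlam hx)
      have h0 := (isE (PadicAlgCl 3)).neg_nons hn
      have hR' : -R = .some x (-y - 1) h0 := by
        rw [hR]
        exact (isE _).neg_eq hn h0
      have hgg : gg (ι i₀) (-R) = 1 / x := by
        rw [hR', gg_some, hy, div_eq_div_iff (mul_ne_zero hlam hx) hx]
        linear_combination (-2 * x) * hI
      have hx3 : x ^ 3 = -1 := by
        rw [← he, hy]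
        linear_combination (ι i₀ ^ 2 - ι i₀ + 1) * hI
      have hW3 : (ι u * gg (ι i₀) (-R)) ^ 3 = (-1) ^ 3 * (1 + 3 * d) := by
        rw [hgg, mul_pow, hU3, div_pow, hx3]
        ring
      have hW0 : ι u * gg (ι i₀) (-R) ≠ 0 := by
        rw [hgg]
        exact mul_ne_zero hU0 (div_ne_zero one_ne_zero hx)
      have hm : ι s / (ι u * gg (ι i₀) (-R)) ∈ Kl (ι i₀) := by
        intro τ hτ
        obtain ⟨σ, hcm⟩ := exists_cmp ι τ hτ
        rw [map_div₀, hts τ σ hcm, tau_g hT (st1_neg hS) hR' hx hcm]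
        have h1 := pow_three hI (-h σ)
        rw [neg_neg] at h1
        rw [← h1, mul_div_mul_left]
        exact pow_ne_zero _ (I_ne (isE (PadicAlgCl 3)) hI)
      refine fin_of (q := q) hi ι hv (V := -(ι s / (ι u * gg (ι i₀) (-R)))) (t := d) (neg_mem hm) hdm hd1 ?_
      rw [← hZ, neg_pow, div_pow, hW3]
      have hc := one_add_ne hd1
      field_simp
    · -- the general case
      have hW0 : ι u * gg (ι i₀) R ≠ 0 := mul_ne_zero hU0 hG
      have hm : ι s * (ι u * gg (ι i₀) R) ∈ Kl (ι i₀) := by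
        intro τ hτ
        obtain ⟨σ, hcm⟩ := exists_cmp ι τ hτ
        rw [map_mul, hts τ σ hcm, tau_g hT hS hR hx hcm]
        have h1 := pow_cancel hI (h σ)
        linear_combination (ι s * (ι u * gg (ι i₀) R)) * h1
      obtain ⟨W, hW⟩ : ∃ W, W = ι u * gg (ι i₀) R := ⟨_, rfl⟩
      rw [← hW] at hm hW0
      have hYm : W ^ 3 ∈ Kl (ι i₀) := by
        have e : W ^ 3 = (ι s * W) ^ 3 / ι s ^ 3 := by
          rw [mul_pow, mul_div_cancel_left₀ _ hZ0]
        rw [e]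
        exact div_mem (pow_mem hm 3) hZm
      have hXm : ι u ^ 2 * XQ ∈ Kl (ι i₀) := tau_X hT hS eQ
      have heq := ((isE _).eqn _ _).1 hnQ.1
      have heY : (W ^ 3) ^ 2 + (1 + 3 * d) * W ^ 3 = (ι u ^ 2 * XQ) ^ 3 := by
        rw [hW, ← hU3]
        linear_combination (ι u ^ 6) * heq
      obtain ⟨V, hV, hV0, t, ht, ht1, eY⟩ := ord_cube hI hdm hd1 hd2 hXm hYm
        (pow_ne_zero 3 hW0) heY
      obtain ⟨t', ht', ht1', et⟩ := inv_exK ht ht1
      refine fin_of (q := q) hi ι hv (V := ι s * W / V) (t := t') (div_mem hm hV) ht' ht1' ?_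
      rw [← hZ, div_pow, mul_pow, eY]
      have hV3 : V ^ 3 ≠ 0 := pow_ne_zero 3 hV0
      have e3 : ι s ^ 3 * (V ^ 3 * (1 + 3 * t)) / V ^ 3 * (1 + 3 * t') =
          ι s ^ 3 * ((1 + 3 * t) * (1 + 3 * t')) := by
        field_simp
      rw [e3, et, mul_one]

end final

/-- **CT-LOC3** -/
theorem t_loc3 : S_LOC3 := by
  intro i₀ hi D hD3 hD9 u a hT h v q g hv hK hF ι R hS
  exact core3 hD3 hD9 hT hv hK hS

end Pool.Agent.Y180.CT
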